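import Mathlib
import Pool.Agent.Y922.AP.Stm

/-! AP-BRI: clearing denominators. -/

set_option autoImplicit false

namespace Pool.Agent.Y388.AP

open Pool.Agent.Y922.AP MvPolynomial Finset

lemma frac (K : Subfield ℂ) (a : ℂ) (x : ℂ) (hx : x ∈ adj K a) :
    ∃ f g : Polynomial K, Polynomial.aeval a g ≠ 0 ∧ x * Polynomial.aeval a g = Polynomial.aeval a f := by
  unfold adj at hx
  induction hx using Subfield.closure_induction with
  | mem x hx =>
    rcases hx with hx | hx
    · refine ⟨Polynomial.C ⟨x, hx⟩, 1, by simp, ?_⟩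
      rw [map_one, mul_one, Polynomial.aeval_C]
      rfl
    · refine ⟨Polynomial.X, 1, by simp, ?_⟩
      rw [map_one, mul_one, Polynomial.aeval_X]
      exact hx
  | one => exact ⟨1, 1, by simp, by simp⟩
  | add x y _ _ h1 h2 =>
    obtain ⟨f, g, hg, h⟩ := h1
    obtain ⟨f', g', hg', h'⟩ := h2
    refine ⟨f * g' + f' * g, g * g', by rw [map_mul]; exact mul_ne_zero hg hg', ?_⟩
    rw [map_add, map_mul, map_mul, map_mul, ← h, ← h']
    ring
  | neg x _ h1 =>
    obtain ⟨f, g, hg, h⟩ := h1
    refine ⟨-f, g, hg, ?_⟩
    rw [map_neg, ← h]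
    ring
  | inv x _ h1 =>
    obtain ⟨f, g, hg, h⟩ := h1
    by_cases hx0 : x = 0
    · refine ⟨0, 1, by simp, ?_⟩
      rw [hx0]; simp
    · refine ⟨g, f, ?_, ?_⟩
      · rw [← h]
        exact mul_ne_zero hx0 hg
      · rw [← h]
        field_simp
  | mul x y _ _ h1 h2 =>
    obtain ⟨f, g, hg, h⟩ := h1
    obtain ⟨f', g', hg', h'⟩ := h2
    refine ⟨f * f', g * g', by rw [map_mul]; exact mul_ne_zero hg hg', ?_⟩
    rw [map_mul, map_mul, ← h, ← h']
    ring

/-- a polynomial in the variable `none` -/
noncomputable def pn (K : Subfield ℂ) (ι : Type) (f : Polynomial K) : MvPolynomial (Option ι) K :=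
  Polynomial.aeval (X none) f

lemma pn_eval (K : Subfield ℂ) (a : ℂ) (ι : Type) (z : ι → ℂ) (f : Polynomial K) :
    aeval (fun o : Option ι => o.elim a z) (pn K ι f) = Polynomial.aeval a f := by
  unfold pn
  rw [← Polynomial.aeval_algHom_apply]
  simp

lemma pn_vars (K : Subfield ℂ) (ι : Type) (f : Polynomial K) (k : ι) : some k ∉ (pn K ι f).vars := by
  classical
  unfold pn
  induction f using Polynomial.induction_on' with
  | add p q hp hq =>
    rw [map_add]
    intro h
    rcases Finset.mem_union.1 (vars_add_subset _ _ h) with h | h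
    · exact hp h
    · exact hq h
  | monomial n c =>
    rw [Polynomial.aeval_monomial]
    intro h
    rcases Finset.mem_union.1 (vars_mul _ _ h) with h | h
    · rw [MvPolynomial.algebraMap_eq, vars_C] at h
      simp at h
    · have h2 := vars_pow _ _ h
      rw [vars_X] at h2
      simp at h2

theorem t_BRI : S_BRI := by
  classical
  intro K a ι P
  choose f g hg hfg using fun c : adj K a => frac K a c.1 c.2
  set S := P.support with hS
  set P' : MvPolynomial (Option ι) K := ∑ m ∈ S,
    pn K ι (f (P.coeff m) * ∏ m' ∈ S.erase m, g (P.coeff m')) * rename some (monomial m 1) with hP'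
  refine ⟨P', Polynomial.aeval a (∏ m ∈ S, g (P.coeff m)), ?_, ?_, ?_⟩
  · rw [map_prod]
    exact prod_ne_zero_iff.2 fun m _ => hg _
  · intro k hk
    rw [hP'] at hk
    have h1 := vars_sum_subset _ _ hk
    rw [mem_biUnion] at h1
    obtain ⟨m, hm, h2⟩ := h1
    rcases Finset.mem_union.1 (vars_mul _ _ h2) with h | h
    · exact absurd h (pn_vars K ι _ k)
    · have h3 := vars_rename _ _ h
      rw [mem_image] at h3
      obtain ⟨j, hj, hjk⟩ := h3
      rw [Option.some.injEq] at hjk
      subst hjk
      rw [vars_monomial one_ne_zero] at hj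
      rw [mem_vars_iff_mem_support]
      exact ⟨m, hm, hj⟩
  · intro z
    rw [hP', map_sum]
    have h1 : aeval z P = ∑ m ∈ S, ((P.coeff m : adj K a) : ℂ) * m.prod fun i k => z i ^ k := by
      rw [aeval_def, eval₂_eq]
      apply sum_congr rfl
      intro m _
      rfl
    rw [h1, mul_sum]
    apply sum_congr rfl
    intro m hm
    rw [map_mul, pn_eval, aeval_rename, aeval_monomial, map_one, one_mul, map_mul, ← hfg,
      ← mul_prod_erase S _ hm, map_mul]
    have h2 : (m.prod fun i k => ((fun o : Option ι => o.elim a z) ∘ some) i ^ k) = m.prod fun i k => z i ^ k := rfl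
    rw [h2]
    ring

theorem t_TOW : S_TOW := by
  intro K a ι z
  have hle : K ≤ adj K a := by
    intro x hx
    exact Subfield.subset_closure (Or.inl hx)
  have haa : a ∈ adj K a := Subfield.subset_closure (Or.inr rfl)
  constructor
  · intro h
    refine ⟨?_, ?_⟩
    · have := h.transcendental none
      exact this
    · rw [algebraicIndependent_iff]
      intro P hP
      obtain ⟨P', d, hd, -, hPz⟩ := t_BRI K a ι P
      have h1 : P' = 0 := by
        apply (algebraicIndependent_iff.1 h) P'
        rw [hPz z, hP, mul_zero]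
      have h2 : ∀ z' : ι → ℂ, aeval z' P = 0 := by
        intro z'
        have h3 := hPz z'
        rw [h1, map_zero] at h3
        rcases mul_eq_zero.1 h3.symm with h4 | h4
        · exact absurd h4 hd
        · exact h4
      have h5 : MvPolynomial.map (algebraMap (adj K a) ℂ) P = 0 := by
        apply MvPolynomial.funext
        intro z'
        rw [map_zero, eval_map, ← aeval_def]
        exact h2 z'
      exact (MvPolynomial.map_injective _ (algebraMap (adj K a) ℂ).injective) (by rw [h5, map_zero])
  · rintro ⟨h1, h2⟩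
    let _ : Algebra K (adj K a) := (Subfield.inclusion hle).toAlgebra
    have : IsScalarTower K (adj K a) ℂ := IsScalarTower.of_algebraMap_eq fun x => rfl
    have hx : AlgebraicIndependent K (fun _ : Unit => a) := by
      rw [algebraicIndependent_unique_type_iff]
      exact h1
    have h3 : AlgebraicIndependent K (Sum.elim z (fun _ : Unit => a)) := by
      refine hx.sumElim_of_tower (S := adj K a) ?_ h2
      rintro _ ⟨_, rfl⟩
      exact ⟨⟨a, haa⟩, rfl⟩
    have h4 := h3.comp (Equiv.optionEquivSumPUnit ι) (Equiv.optionEquivSumPUnit ι).injective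
    convert h4 using 1
    funext o
    cases o <;> simp

end Pool.Agent.Y388.AP
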