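import Mathlib
import Pool.Agent.Y922.AP.Stm

/-! AP-PTS: points, real numbers. -/

set_option autoImplicit false

namespace Pool.Agent.Y388.AP

open Pool.Agent.Y922.AP

theorem t_PTS : S_PTS := by
  intro K n s h
  set A := Algebra.adjoin K (Set.range s) with hA
  have hsA : ∀ i, s i ∈ A := fun i => Algebra.subset_adjoin ⟨i, rfl⟩
  let x : Fin n → A := fun i => ⟨s i, hsA i⟩
  let y : Fin n → A := fun i => (x i - algebraMap K A (1 / 2)) ^ 2
  have hhalf : ((algebraMap K A (1 / 2) : A) : ℂ) = 1 / 2 := by
    change ((((1 / 2 : K)) : ℂ)) = 1 / 2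
    push_cast
    rfl
  have hy : AlgebraicIndependent K y := by
    apply AlgebraicIndependent.of_comp A.val
    convert h using 1
    funext i
    change (s i - ((algebraMap K A (1 / 2) : A) : ℂ)) ^ 2 = _
    rw [hhalf]
  have hcard : Cardinal.mk (Fin n) ≤ Algebra.trdeg K A := hy.cardinalMk_le_trdeg
  have hx : Set.range x = ((↑) : A → ℂ) ⁻¹' (Set.range s) := by
    ext ⟨w, hw⟩
    constructor
    · rintro ⟨i, hi⟩
      exact ⟨i, congrArg Subtype.val hi⟩
    · rintro ⟨i, hi⟩
      exact ⟨i, Subtype.ext hi⟩
  have htop : Algebra.adjoin K (Set.range x) = ⊤ := by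
    rw [hx]
    exact Algebra.adjoin_adjoin_coe_preimage
  have : Algebra.IsAlgebraic (Algebra.adjoin K (Set.range x)) A := by
    constructor
    intro a
    have ha : a ∈ Algebra.adjoin K (Set.range x) := by rw [htop]; trivial
    exact isAlgebraic_algebraMap (⟨a, ha⟩ : Algebra.adjoin K (Set.range x))
  have hf : FaithfulSMul K A := (faithfulSMul_iff_algebraMap_injective K A).2 (algebraMap K A).injective
  have hb := Algebra.IsAlgebraic.isTranscendenceBasis_of_le_trdeg_of_finite K x hcard
  have h2 := hb.1.map' (f := A.val) Subtype.val_injective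
  exact h2

theorem t_REAL : S_REAL := by
  intro K ι g h
  have h' : AlgebraicIndependent K (Complex.ofRealHom ∘ g) := h
  refine AlgebraicIndependent.of_ringHom_of_comp_eq (algebraMap ℚ K) Complex.ofRealHom h'
    (algebraMap ℚ K).injective ?_
  exact Subsingleton.elim _ _

end Pool.Agent.Y388.AP
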