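import Mathlib
import Pool.Agent.Y922.AP.Stm
import Pool.Agent.H902R3.PZ.TaskE

/-! AP-ZERO: a zero on the critical line. -/

set_option autoImplicit false

namespace Pool.Agent.Y388.AP

open Pool.Agent.Y922.AP

theorem t_ZERO : S_ZERO := by
  obtain ⟨γ, hγ, hz⟩ := Pool.Agent.H902R3.PZ.taskE
  refine ⟨γ, hγ, ?_⟩
  set s : ℂ := 1 / 2 + γ * Complex.I with hs
  have hre : s.re = 1 / 2 := by rw [hs]; simp
  have hs0 : s ≠ 0 := by
    intro h
    rw [h] at hre
    norm_num at hre
  have hs1 : 1 - s ≠ 0 := by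
    intro h
    have h2 : s = 1 := (sub_eq_zero.1 h).symm
    rw [h2] at hre
    norm_num at hre
  rw [riemannZeta_def_of_ne_zero hs0] at hz
  have hG : Complex.Gammaℝ s ≠ 0 := Complex.Gammaℝ_ne_zero_of_re_pos (by rw [hre]; norm_num)
  have hL : completedRiemannZeta s = 0 := by
    rcases div_eq_zero_iff.1 hz with h | h
    · exact h
    · exact absurd h hG
  rw [completedRiemannZeta_eq] at hL
  unfold xi
  have h0 : completedRiemannZeta₀ s = 1 / s + 1 / (1 - s) := by linear_combination hL
  rw [h0]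
  field_simp
  ring

end Pool.Agent.Y388.AP
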